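import Pool.Agent.H49.Tsp.Final

/-!
One-pass streaming approximation of the Euclidean TSP on the grid with a factor below two in
polylogarithmic space.
-/

set_option autoImplicit false

namespace Pool.Agent.Results.MP_2b2c79_lc.StreamingTsp

/-- Length of the walk from `u` through the points of the list, one after the other. -/
noncomputable def walk : ℂ → List ℂ → ℝ
  | _, [] => 0
  | u, v :: l => dist u v + walk v l

/-- Length of the closed tour through the points of a list, back to the first one. -/
noncomputable def tourLength : List ℂ → ℝ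
  | [] => 0
  | u :: t => walk u (t ++ [u])

/-- `T` is the length of a shortest closed tour visiting every point of `P`; tours may pass through
other points of the plane and may visit a point several times. -/
def IsTSP (P : Finset ℂ) (T : ℝ) : Prop :=
  IsLeast {s : ℝ | ∃ L : List ℂ, (∀ p ∈ P, p ∈ L) ∧ s = tourLength L} T

/-- The set of the points of the plane which occur in a stream of pairs. -/
noncomputable def points (l : List (ℕ × ℕ)) : Finset ℂ :=
  l.toFinset.image fun p => (⟨(p.1 : ℝ), (p.2 : ℝ)⟩ : ℂ)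

/-- A randomized one-pass algorithm: a seed is drawn uniformly at random before the stream starts
and kept in memory; then the state is updated once for every point of the stream. -/
structure Algorithm where
  Seed : Type
  State : Type
  [finSeed : Fintype Seed]
  [neSeed : Nonempty Seed]
  [finState : Fintype State]
  start : Seed → State
  step : Seed → State → ℕ × ℕ → State
  out : Seed → State → ℝ

attribute [instance] Algorithm.finSeed Algorithm.neSeed Algorithm.finState

/-- Bits of memory: for the seed and for the state. -/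
def Algorithm.bits (A : Algorithm) : ℕ :=
  Nat.clog 2 (Fintype.card A.Seed) + Nat.clog 2 (Fintype.card A.State)

/-- The output on the stream `l` with the seed `ω`. -/
def Algorithm.output (A : Algorithm) (l : List (ℕ × ℕ)) (ω : A.Seed) : ℝ :=
  A.out ω (l.foldl (A.step ω) (A.start ω))

/-- The probability that the output on the stream `l` lies in `S`. -/
noncomputable def Algorithm.prob (A : Algorithm) (l : List (ℕ × ℕ)) (S : Set ℝ) : ℝ :=
  (Nat.card {ω : A.Seed // A.output l ω ∈ S} : ℝ) / Fintype.card A.Seed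

open Pool.Agent.H49.Tsp Pool.Agent.H49.Tsp.Euler in
private lemma walk_eq (u : ℂ) (l : List ℂ) : walk u l = pc u l := by
  induction l generalizing u with
  | nil => rfl
  | cons v l ih => rw [walk, pc, ih, Complex.dist_eq]

open Pool.Agent.H49.Tsp Pool.Agent.H49.Tsp.Euler in
private lemma tourLength_eq (l : List ℂ) : tourLength l = tour l := by
  cases l with
  | nil => simp [tourLength, tour]
  | cons u t => rw [tourLength, walk_eq, tour_cons]

private lemma walk_append (X : List ℂ) (u y : ℂ) (Z : List ℂ) :
    walk u (X ++ y :: Z) = walk u (X ++ [y]) + walk y Z := by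
  induction X generalizing u with
  | nil => simp [walk]
  | cons x X ih => rw [List.cons_append, List.cons_append, walk, walk, ih x, add_assoc]

private lemma tourLength_rotate (A B : List ℂ) (p : ℂ) :
    tourLength (A ++ p :: B) = tourLength (p :: (B ++ A)) := by
  cases A with
  | nil => simp
  | cons h A =>
    have e1 : tourLength (h :: A ++ p :: B) = walk h (A ++ p :: (B ++ [h])) := by
      simp [tourLength]
    have e2 : tourLength (p :: (B ++ h :: A)) = walk p (B ++ h :: (A ++ [p])) := by
      simp [tourLength]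
    rw [e1, e2, walk_append A h p (B ++ [h]), walk_append B p h (A ++ [p]), add_comm]

open Pool.Agent.H49.Tsp Pool.Agent.H49.Tsp.Euler in
private lemma tsp_le_tourLength (P : Finset ℂ) (L : List ℂ) (h : ∀ p ∈ P, p ∈ L) :
    tsp P ≤ tourLength L := by
  classical
  rcases P.eq_empty_or_nonempty with rfl | ⟨p, hp⟩
  · rw [tsp_empty, tourLength_eq]
    exact tour_nonneg L
  · obtain ⟨A, B, rfl⟩ := List.append_of_mem (h p hp)
    rw [tourLength_rotate]
    set t := B ++ A with ht
    set t' := (t.filter fun z => decide (z ∈ P ∧ z ≠ p)).dedup with ht'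
    have hsub : t'.Sublist t := (List.dedup_sublist _).trans List.filter_sublist
    have hmem : ∀ z, z ∈ t' ↔ z ∈ P ∧ z ≠ p := by
      intro z
      rw [ht', List.mem_dedup, List.mem_filter, decide_eq_true_iff]
      constructor
      · exact fun hz => hz.2
      · intro hz
        refine ⟨?_, hz⟩
        have h1 := h z hz.1
        rw [List.mem_append, List.mem_cons] at h1
        rw [ht, List.mem_append]
        rcases h1 with h1 | h1 | h1
        · exact Or.inr h1
        · exact absurd h1 hz.2
        · exact Or.inl h1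
    have h1 : tsp P ≤ tour (p :: t') := by
      refine tsp_le _ ?_ ?_
      · rw [List.nodup_cons]
        exact ⟨fun hc => ((hmem p).1 hc).2 rfl, List.nodup_dedup _⟩
      · ext z
        rw [List.mem_toFinset, List.mem_cons, hmem]
        constructor
        · rintro (rfl | hz)
          · exact hp
          · exact hz.1
        · intro hz
          by_cases hzp : z = p
          · exact Or.inl hzp
          · exact Or.inr ⟨hz, hzp⟩
    rw [tour_cons] at h1
    refine h1.trans ?_
    show _ ≤ walk p (t ++ [p])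
    rw [walk_eq]
    exact pc_sublist hsub p p

open Pool.Agent.H49.Tsp Pool.Agent.H49.Tsp.Euler in
private lemma isTSP_tsp (P : Finset ℂ) : IsTSP P (tsp P) := by
  classical
  constructor
  · have hne : {x : ℝ | ∃ l : List ℂ, l.Nodup ∧ l.toFinset = P ∧ x = tour l}.Nonempty :=
      ⟨_, P.toList, P.nodup_toList, by simp, rfl⟩
    have hfin : {x : ℝ | ∃ l : List ℂ, l.Nodup ∧ l.toFinset = P ∧ x = tour l}.Finite := by
      refine ((List.finite_toSet P.toList.permutations).image tour).subset ?_
      rintro x ⟨l, h1, h2, rfl⟩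
      refine ⟨l, ?_, rfl⟩
      rw [Set.mem_ofPred_eq, List.mem_permutations, List.perm_ext_iff_of_nodup h1 P.nodup_toList]
      intro a
      rw [Finset.mem_toList, ← h2, List.mem_toFinset]
    obtain ⟨l, h1, h2, h3⟩ := hne.csInf_mem hfin
    refine ⟨l, ?_, ?_⟩
    · intro p hp
      rw [← h2] at hp
      exact List.mem_toFinset.1 hp
    · rw [tourLength_eq, ← h3]
      rfl
  · rintro s ⟨L, hL, rfl⟩
    exact tsp_le_tourLength P L hL

/-- There are a constant `c < 2` and one-pass randomized streaming algorithms, one for every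
`Δ ≥ 2`, which use `(log Δ) ^ O(1)` bits and output on every stream of points of the grid
`{1, ..., Δ} ^ 2` (in any order, also with repetitions) with probability at least `2 / 3` a
`c`-approximation of the length of a shortest closed tour. -/
theorem result : ∃ c : ℝ, 1 ≤ c ∧ c < 2 ∧ ∃ (C : ℝ) (k : ℕ), ∀ Δ : ℕ, 2 ≤ Δ →
    ∃ A : Algorithm, (A.bits : ℝ) ≤ C * Real.log Δ ^ k ∧
      ∀ l : List (ℕ × ℕ), (∀ p ∈ l, 1 ≤ p.1 ∧ p.1 ≤ Δ ∧ 1 ≤ p.2 ∧ p.2 ≤ Δ) →
        ∃ T : ℝ, IsTSP (points l) T ∧ 2 / 3 ≤ A.prob l {y | T ≤ y ∧ y ≤ c * T} := by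
  classical
  obtain ⟨c, hc, C, k, h⟩ := Pool.Agent.H49.Tsp.seedStr_tsp
  refine ⟨max c 1, le_max_right _ _, max_lt hc (by norm_num),
    2 * C * (2 / Real.log 2) ^ k, k, fun Δ hΔ => ?_⟩
  obtain ⟨Ω, St, i1, i2, i3, i4, init, step, out, hcard, hl⟩ := h Δ (by omega)
  refine ⟨{ Seed := Ω, State := St, start := init, step := step, out := out }, ?_, ?_⟩
  · have hΩ : 0 < Fintype.card Ω := Fintype.card_pos
    have hSt : 0 < Fintype.card St := Fintype.card_pos
    have h1 : Nat.clog 2 (Fintype.card Ω) ≤ C * (Nat.log 2 Δ + 1) ^ k := by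
      refine Nat.clog_le_of_le_pow (le_trans ?_ hcard)
      exact Nat.le_mul_of_pos_right _ hSt
    have h2 : Nat.clog 2 (Fintype.card St) ≤ C * (Nat.log 2 Δ + 1) ^ k := by
      refine Nat.clog_le_of_le_pow (le_trans ?_ hcard)
      exact Nat.le_mul_of_pos_left _ hΩ
    have h3 : (Nat.clog 2 (Fintype.card Ω) + Nat.clog 2 (Fintype.card St) : ℕ)
        ≤ 2 * (C * (Nat.log 2 Δ + 1) ^ k) := by omega
    have hlog2 : 0 < Real.log 2 := Real.log_pos (by norm_num)
    have h4 : ((Nat.log 2 Δ : ℝ) + 1) ≤ 2 / Real.log 2 * Real.log Δ := by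
      have h5 : (Nat.log 2 Δ : ℝ) ≤ Real.log Δ / Real.log 2 := by
        have h51 : 2 ^ Nat.log 2 Δ ≤ Δ := Nat.pow_log_le_self 2 (by omega)
        have h52 : ((2 : ℝ) ^ Nat.log 2 Δ) ≤ Δ := by exact_mod_cast h51
        have h53 := Real.log_le_log (by positivity) h52
        rw [Real.log_pow] at h53
        rw [le_div_iff₀ hlog2]
        exact h53
      have h6 : 1 ≤ Real.log Δ / Real.log 2 := by
        rw [le_div_iff₀ hlog2, one_mul]
        exact Real.log_le_log (by norm_num) (by exact_mod_cast hΔ)
      calc ((Nat.log 2 Δ : ℝ) + 1) ≤ Real.log Δ / Real.log 2 + Real.log Δ / Real.log 2 :=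
            add_le_add h5 h6
        _ = 2 / Real.log 2 * Real.log Δ := by ring
    have h7 : ((Nat.clog 2 (Fintype.card Ω) + Nat.clog 2 (Fintype.card St) : ℕ) : ℝ)
        ≤ 2 * (C * ((Nat.log 2 Δ : ℝ) + 1) ^ k) := by
      exact_mod_cast h3
    refine h7.trans ?_
    have h8 : ((Nat.log 2 Δ : ℝ) + 1) ^ k ≤ (2 / Real.log 2 * Real.log Δ) ^ k :=
      pow_le_pow_left₀ (by positivity) h4 k
    rw [mul_pow] at h8
    have h9 : (0 : ℝ) ≤ C := Nat.cast_nonneg C
    calc 2 * (C * ((Nat.log 2 Δ : ℝ) + 1) ^ k)
        ≤ 2 * (C * ((2 / Real.log 2) ^ k * Real.log Δ ^ k)) := by gcongr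
      _ = 2 * C * (2 / Real.log 2) ^ k * Real.log Δ ^ k := by ring
  · intro l hbox
    have hpts : Pool.Agent.H29.Stream.pts l = points l := by
      rw [Pool.Agent.H29.Stream.pts_eq]
      unfold points
      congr!
    refine ⟨Pool.Agent.H49.Tsp.tsp (points l), isTSP_tsp _, ?_⟩
    have h1 := hl l hbox
    simp only [hpts] at h1
    set T := Pool.Agent.H49.Tsp.tsp (points l) with hT
    have hT0 : 0 ≤ T := Pool.Agent.H49.Tsp.tsp_nonneg _
    set bad := Finset.univ.filter (fun ω : Ω => out ω (l.foldl (step ω) (init ω)) ∉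
      {y : ℝ | T ≤ y ∧ y ≤ c * T}) with hbad
    set good := Finset.univ.filter (fun ω : Ω => out ω (l.foldl (step ω) (init ω)) ∈
      {y : ℝ | T ≤ y ∧ y ≤ max c 1 * T}) with hgood
    have h2 : Fintype.card Ω ≤ bad.card + good.card := by
      rw [← Finset.card_univ]
      refine le_trans (Finset.card_le_card ?_) (Finset.card_union_le _ _)
      intro ω _
      rw [Finset.mem_union, hbad, hgood, Finset.mem_filter, Finset.mem_filter]
      by_cases h3 : out ω (l.foldl (step ω) (init ω)) ∈ {y : ℝ | T ≤ y ∧ y ≤ c * T}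
      · right
        refine ⟨Finset.mem_univ _, h3.1, h3.2.trans ?_⟩
        exact mul_le_mul_of_nonneg_right (le_max_left _ _) hT0
      · left
        exact ⟨Finset.mem_univ _, h3⟩
    have h3 : 3 * bad.card ≤ Fintype.card Ω := by
      convert h1 using 3
    have h4 : 2 * Fintype.card Ω ≤ 3 * good.card := by omega
    have hΩ : (0 : ℝ) < Fintype.card Ω := by exact_mod_cast Fintype.card_pos
    show 2 / 3 ≤ (Nat.card {ω : Ω // out ω (l.foldl (step ω) (init ω)) ∈
      {y : ℝ | T ≤ y ∧ y ≤ max c 1 * T}} : ℝ) / Fintype.card Ω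
    have h5 : Nat.card {ω : Ω // out ω (l.foldl (step ω) (init ω)) ∈
        {y : ℝ | T ≤ y ∧ y ≤ max c 1 * T}} = good.card := by
      rw [Nat.card_eq_fintype_card, Fintype.card_subtype]
    rw [h5, le_div_iff₀ hΩ]
    have h6 : (2 : ℝ) * Fintype.card Ω ≤ 3 * good.card := by exact_mod_cast h4
    linarith

end Pool.Agent.Results.MP_2b2c79_lc.StreamingTsp
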